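import Pool.Agent.Lib_helper43.PJ.D
import Pool.Agent.Lib_helper43.PJ.W_OrdA
import Pool.Agent.Lib_helper43.PJ.W_OrdB

/-!
The Picard number of the cone over a projectively normal plane curve is at most one.
Auxiliary to BLOCK DiagB of MP_f6fc0c_ag.
-/

noncomputable section

namespace PicJump

namespace Cone

open MvPolynomial

variable {k : Type} [Field k]

attribute [local instance] MvPolynomial.gradedAlgebra

/-- the vertex -/
def e0 : Fin 4 → k := Fin.cons 1 (fun _ => 0)

theorem finSucc_coeff {f : Pol k} {n : ℕ} (hf : f.IsHomogeneous n) :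
    (finSuccEquiv k 3 f).coeff n = C (eval e0 f) := by
  have h1 : ∀ j m : ℕ, j + m = n → ((finSuccEquiv k 3 f).coeff j).IsHomogeneous m :=
    fun j m h => hf.finSuccEquiv_coeff_isHomogeneous j m h
  have h2 : (finSuccEquiv k 3 f).natDegree ≤ n := by
    rw [natDegree_finSuccEquiv]
    exact (degreeOf_le_totalDegree f 0).trans hf.totalDegree_le
  have h3 : (finSuccEquiv k 3 f).coeff n = C (coeff 0 ((finSuccEquiv k 3 f).coeff n)) := by
    have h4 : ((finSuccEquiv k 3 f).coeff n).totalDegree = 0 := by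
      have := (h1 n 0 (by simp)).totalDegree_le
      omega
    exact totalDegree_eq_zero_iff_eq_C.1 h4
  rw [h3]
  congr 1
  rw [e0, eval_eq_eval_mv_eval']
  rw [Polynomial.eval_eq_sum_range' (n := n + 1) (by
    have := Polynomial.natDegree_map_le (f := eval (fun _ : Fin 3 => (0 : k)))
      (p := finSuccEquiv k 3 f)
    omega)]
  rw [Finset.sum_range_succ, Finset.sum_eq_zero, zero_add]
  · rw [Polynomial.coeff_map, one_pow, mul_one, h3, eval_C, coeff_C, if_pos rfl]
  · intro j hj
    rw [Finset.mem_range] at hj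
    have h5 := h1 j (n - j) (by omega)
    rw [Polynomial.coeff_map, one_pow, mul_one]
    rw [show (fun _ : Fin 3 => (0 : k)) = 0 from rfl, eval_zero, constantCoeff_eq]
    exact h5.coeff_eq_zero (by simp; omega)

theorem natDegree_le {f : Pol k} {n : ℕ} (hf : f.IsHomogeneous n) :
    (finSuccEquiv k 3 f).natDegree ≤ n := by
  rw [natDegree_finSuccEquiv]
  exact (degreeOf_le_totalDegree f 0).trans hf.totalDegree_le

theorem finSucc_rename (f : MvPolynomial (Fin 3) k) :
    finSuccEquiv k 3 (rename Fin.succ f) = Polynomial.C f := by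
  induction f using MvPolynomial.induction_on with
  | C a =>
    rw [rename_C]
    exact (finSuccEquiv k 3).commutes a
  | add p q hp hq => rw [map_add, map_add, hp, hq, map_add]
  | mul_X p j hp => rw [map_mul, map_mul, hp, rename_X, finSuccEquiv_X_succ, map_mul]

variable {R : Type} [CommRing R] [IsDomain R] (ρ : MvPolynomial (Fin 3) k →+* R)

/-- the ring homomorphism `k[x_0,..,x_3] -> R[T]` -/
def psi : Pol k →+* Polynomial R :=
  (Polynomial.mapRingHom ρ).comp (finSuccEquiv k 3 : Pol k →+* Polynomial (MvPolynomial (Fin 3) k))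

theorem psi_apply (f : Pol k) : psi ρ f = (finSuccEquiv k 3 f).map ρ := rfl

theorem psi_X0 : psi ρ (X 0) = Polynomial.X := by
  rw [psi_apply, finSuccEquiv_X_zero, Polynomial.map_X]

theorem psi_rename (f : MvPolynomial (Fin 3) k) :
    psi ρ (rename Fin.succ f) = Polynomial.C (ρ f) := by
  rw [psi_apply, finSucc_rename, Polynomial.map_C]

theorem psi_surjective (hρ : Function.Surjective ρ) : Function.Surjective (psi ρ) := by
  refine (Polynomial.map_surjective ρ hρ).comp (finSuccEquiv k 3).surjective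

theorem psi_coeff {f : Pol k} {n : ℕ} (hf : f.IsHomogeneous n) :
    (psi ρ f).coeff n = ρ (C (eval e0 f)) := by
  rw [psi_apply, Polynomial.coeff_map, finSucc_coeff hf]

theorem psi_natDegree_le {f : Pol k} {n : ℕ} (hf : f.IsHomogeneous n) :
    (psi ρ f).natDegree ≤ n := by
  rw [psi_apply]
  exact Polynomial.natDegree_map_le.trans (natDegree_le hf)

theorem rho_C_eq_zero {c : k} (h : ρ (C c) = 0) : c = 0 := by
  by_contra hc
  have : ρ (C c) * ρ (C c⁻¹) = 1 := by
    rw [← map_mul, ← map_mul, mul_inv_cancel₀ hc, map_one, map_one]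
  rw [h, zero_mul] at this
  exact zero_ne_one this

theorem eval_e0_of_mem {I : Ideal (Pol k)} (hI : I = RingHom.ker (psi ρ)) (hIh : HomogIdeal I)
    {f : Pol k} (hf : f ∈ I) : eval e0 f = 0 := by
  rw [← sum_homogeneousComponent f, map_sum]
  refine Finset.sum_eq_zero fun n _ => ?_
  have h1 := hIh f hf n
  rw [hI, RingHom.mem_ker] at h1
  apply rho_C_eq_zero ρ
  rw [← psi_coeff ρ (homogeneousComponent_isHomogeneous n f), h1, Polynomial.coeff_zero]

theorem I_prime {I : Ideal (Pol k)} (hI : I = RingHom.ker (psi ρ)) : I.IsPrime := by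
  rw [hI]; exact RingHom.ker_isPrime _

/-- `(X_0) + I` is the preimage of `(T)` -/
theorem J0_eq {I : Ideal (Pol k)} (hI : I = RingHom.ker (psi ρ)) (hρ : Function.Surjective ρ)
    {m : Pol k} : Ideal.span {m} ⊔ I = (Ideal.span {psi ρ m}).comap (psi ρ) := by
  apply le_antisymm
  · refine sup_le ?_ ?_
    · rw [Ideal.span_singleton_le_iff_mem, Ideal.mem_comap]
      exact Ideal.mem_span_singleton_self _
    · intro f hf
      rw [hI, RingHom.mem_ker] at hf
      rw [Ideal.mem_comap, hf]
      exact Ideal.zero_mem _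
  · intro f hf
    rw [Ideal.mem_comap, Ideal.mem_span_singleton'] at hf
    obtain ⟨c, hc⟩ := hf
    obtain ⟨c', rfl⟩ := psi_surjective ρ hρ c
    have h1 : f - c' * m ∈ I := by
      rw [hI, RingHom.mem_ker, map_sub, map_mul, hc, sub_self]
    have h2 : f = c' * m + (f - c' * m) := by ring
    rw [h2]
    exact Ideal.add_mem _ (Ideal.mem_sup_left (Ideal.mem_span_singleton'.2 ⟨c', rfl⟩))
      (Ideal.mem_sup_right h1)

theorem eq_J0 {I : Ideal (Pol k)} (hI : I = RingHom.ker (psi ρ)) (hIh : HomogIdeal I)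
    (hρ : Function.Surjective ρ) (Q : PrimeDiv I) (hQ : (X 0 : Pol k) ∈ Q.carrier) :
    Q.carrier = Ideal.span {X 0} ⊔ I := by
  symm
  refine Q.minimal _ ?_ ?_ ?_ ?_
  · rw [J0_eq ρ hI hρ, psi_X0]
    have : (Ideal.span {(Polynomial.X : Polynomial R)}).IsPrime :=
      (Ideal.span_singleton_prime Polynomial.X_ne_zero).2 Polynomial.prime_X
    exact Ideal.comap_isPrime _ _
  · rw [ordB_homog_iff]
    refine Ideal.IsHomogeneous.sup ?_ ((ordB_homog_iff I).1 hIh)
    refine Ideal.homogeneous_span _ _ ?_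
    rintro _ rfl
    exact ⟨1, isHomogeneous_X _ _⟩
  · refine lt_of_le_of_ne le_sup_right ?_
    intro h
    have : (X 0 : Pol k) ∈ I := by
      rw [h]
      exact Ideal.mem_sup_left (Ideal.mem_span_singleton_self _)
    rw [hI, RingHom.mem_ker, psi_X0] at this
    exact Polynomial.X_ne_zero this
  · exact sup_le ((Ideal.span_singleton_le_iff_mem _).2 hQ) Q.lt.le

theorem ord_X0_pow {I : Ideal (Pol k)} (hI : I = RingHom.ker (psi ρ)) (hIh : HomogIdeal I)
    (hρ : Function.Surjective ρ) (Q : PrimeDiv I) (n : ℕ) :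
    ord Q (X 0 ^ n : Pol k) = n * ord Q (X 0 : Pol k) := by
  by_cases hQ : (X 0 : Pol k) ∈ Q.carrier
  · have hloc : LocPrin Q (X 0 : Pol k) := by
      refine ⟨hQ, 1, ordA_one Q, fun h hh => ?_⟩
      rw [one_mul, ← eq_J0 ρ hI hIh hρ Q hQ]
      exact hh
    rw [hloc.ord_self (I_prime ρ hI), mul_one]
    refine hloc.ord_eq (I_prime ρ hI) (s := 1) (B := 1) (ordA_one Q) (ordA_one Q) ?_
    simp
  · rw [ord_eq_zero_of_not_mem Q hQ, mul_zero, ord_eq_zero_of_not_mem]
    exact fun h => hQ (Q.prime.mem_of_pow_mem n h)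

/-- a prime divisor not through the vertex is cut out by one form -/
theorem exists_gen [IsIntegrallyClosed R] {I : Ideal (Pol k)} (hI : I = RingHom.ker (psi ρ))
    (hIh : HomogIdeal I) (hρ : Function.Surjective ρ)
    (hρ0 : ∀ f, ρ f = 0 → constantCoeff f = 0) (Q : PrimeDiv I)
    (hQ : ∃ f ∈ Q.carrier, eval e0 f ≠ 0) :
    ∃ (n : ℕ) (m : Pol k), m.IsHomogeneous n ∧ m ∉ I ∧ Q.carrier = Ideal.span {m} ⊔ I := by
  have hsurj := psi_surjective ρ hρ
  have hker : RingHom.ker (psi ρ) ≤ Q.carrier := hI ▸ Q.lt.le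
  -- a form in `Q` not vanishing at the vertex
  obtain ⟨n, h, hh, hhQ, hh0⟩ : ∃ (n : ℕ) (h : Pol k), h.IsHomogeneous n ∧ h ∈ Q.carrier ∧
      eval e0 h ≠ 0 := by
    obtain ⟨f, hf, hf0⟩ := hQ
    by_contra hcon
    push Not at hcon
    apply hf0
    rw [← sum_homogeneousComponent f, map_sum]
    exact Finset.sum_eq_zero fun n _ => hcon n _ (homogeneousComponent_isHomogeneous n f)
      (Q.homog f hf n)
  have := Q.prime
  set q : Ideal (Polynomial R) := Q.carrier.map (psi ρ) with hq
  have hqp : q.IsPrime := Ideal.map_isPrime_of_surjective hsurj hker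
  have hcomap : q.comap (psi ρ) = Q.carrier := by
    rw [hq, Ideal.comap_map_of_surjective _ hsurj]
    exact sup_eq_left.2 hker
  have hmem : ∀ f, psi ρ f ∈ q ↔ f ∈ Q.carrier := by
    intro f
    rw [← hcomap]
    rfl
  -- `q` meets `R` in `0`
  have hbot : q.comap Polynomial.C = ⊥ := by
    by_contra hne
    obtain ⟨r, hr, hr0⟩ := Submodule.exists_mem_ne_zero_of_ne_bot hne
    obtain ⟨f, rfl⟩ := hρ r
    rw [Ideal.mem_comap, ← psi_rename, hmem] at hr
    obtain ⟨m, hm⟩ : ∃ m, homogeneousComponent m (rename Fin.succ f) ∉ I := by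
      by_contra hcon
      push Not at hcon
      apply hr0
      have h1 : rename Fin.succ f ∈ I := by
        rw [← sum_homogeneousComponent (rename Fin.succ f)]
        exact Ideal.sum_mem _ fun m _ => hcon m
      rw [hI, RingHom.mem_ker, psi_rename, Polynomial.C_eq_zero] at h1
      exact h1
    have hmQ := Q.homog _ hr m
    have hPp : (q.comap (Polynomial.C : R →+* Polynomial R)).IsPrime := Ideal.comap_isPrime _ _
    set P : Ideal R := q.comap Polynomial.C with hP
    have hPC : (P.map (Polynomial.C : R →+* Polynomial R)).IsPrime :=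
      Ideal.isPrime_map_C_of_isPrime
    set J : Ideal (Pol k) := (P.map (Polynomial.C : R →+* Polynomial R)).comap (psi ρ) with hJ
    have hJp : J.IsPrime := Ideal.comap_isPrime _ _
    obtain ⟨J', hJ'p, hJ'h, hJ'J, hcore, hform⟩ := ordB_core J hJp
    have hIJ : I ≤ J' := by
      refine hcore I hIh ?_
      intro x hx
      rw [hI, RingHom.mem_ker] at hx
      rw [hJ, Ideal.mem_comap, hx]
      exact Ideal.zero_mem _
    have hmJ : homogeneousComponent m (rename Fin.succ f) ∈ J' := by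
      refine hform _ m (homogeneousComponent_isHomogeneous m _) ?_
      rw [hJ, Ideal.mem_comap, ← rename_homogeneousComponent, psi_rename]
      refine Ideal.mem_map_of_mem _ ?_
      rw [hP, Ideal.mem_comap, ← psi_rename, hmem, rename_homogeneousComponent]
      exact hmQ
    have hlt : I < J' := lt_of_le_of_ne hIJ fun h => hm (h ▸ hmJ)
    have hJQ : J ≤ Q.carrier := by
      rw [← hcomap]
      exact Ideal.comap_mono Ideal.map_comap_le
    have heq := Q.minimal J' hJ'p hJ'h hlt (hJ'J.trans hJQ)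
    have hhJ : h ∈ J := hJ'J (heq ▸ hhQ)
    rw [hJ, Ideal.mem_comap, Ideal.mem_map_C_iff] at hhJ
    have h1 := hhJ n
    rw [psi_coeff ρ hh] at h1
    refine hPp.ne_top ((Ideal.eq_top_iff_one _).2 ?_)
    have h2 : ρ (C (eval e0 h)) * ρ (C (eval e0 h)⁻¹) = 1 := by
      rw [← map_mul, ← map_mul, mul_inv_cancel₀ hh0, map_one, map_one]
    rw [← h2]
    exact Ideal.mul_mem_right _ _ h1
  -- the minimal polynomial
  let B := Polynomial R ⧸ q
  have hBd : IsDomain B := Ideal.Quotient.isDomain q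
  have hinj : Function.Injective (algebraMap R B) := by
    rw [injective_iff_map_eq_zero]
    intro r hr
    have h1 : Ideal.Quotient.mk q (Polynomial.C r) = 0 := hr
    rw [Ideal.Quotient.eq_zero_iff_mem] at h1
    have h2 : r ∈ q.comap Polynomial.C := h1
    rw [hbot] at h2
    exact h2
  have haeval : ∀ p : Polynomial R, Polynomial.aeval (Ideal.Quotient.mk q Polynomial.X : B) p =
      Ideal.Quotient.mk q p := by
    intro p
    have : (Polynomial.aeval (Ideal.Quotient.mk q Polynomial.X : B) : Polynomial R →ₐ[R] B) =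
        Ideal.Quotient.mkₐ R q := by
      apply Polynomial.algHom_ext
      rw [Polynomial.aeval_X]
      rfl
    rw [this]
    rfl
  set t : B := Ideal.Quotient.mk q Polynomial.X with ht
  have htint : IsIntegral R t := by
    refine ⟨psi ρ (C (eval e0 h)⁻¹ * h), ?_, ?_⟩
    · have h1 : (C (eval e0 h)⁻¹ * h).IsHomogeneous n := hh.C_mul _
      refine Polynomial.monic_of_natDegree_le_of_coeff_eq_one n (psi_natDegree_le ρ h1) ?_
      rw [psi_coeff ρ h1, map_mul, eval_C, inv_mul_cancel₀ hh0, map_one, map_one]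
    · have h2 := haeval (psi ρ (C (eval e0 h)⁻¹ * h))
      rw [Polynomial.aeval_def] at h2
      rw [h2, Ideal.Quotient.eq_zero_iff_mem, hmem]
      exact Ideal.mul_mem_left _ _ hhQ
  have : Module.IsTorsionFree R B := by
    rw [Module.isTorsionFree_iff_algebraMap_injective]
    exact hinj
  have hqspan : q = Ideal.span {minpoly R t} := by
    rw [← minpoly.ker_eval htint]
    ext p
    rw [RingHom.mem_ker]
    have : (Polynomial.aeval t : Polynomial R →ₐ[R] B).toRingHom p = Ideal.Quotient.mk q p :=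
      haeval p
    rw [this, Ideal.Quotient.eq_zero_iff_mem]
  have hmonic := minpoly.monic htint
  set μ := minpoly R t with hμ
  obtain ⟨m1, hm1⟩ := hsurj μ
  set N := μ.natDegree with hN
  have hm1Q : m1 ∈ Q.carrier := by
    rw [← hmem, hm1, hqspan]
    exact Ideal.mem_span_singleton_self _
  set m' := homogeneousComponent N m1 with hm'
  have hm'h : m'.IsHomogeneous N := homogeneousComponent_isHomogeneous N m1
  have hm'Q : m' ∈ Q.carrier := Q.homog m1 hm1Q N
  have hcoef : eval e0 m' = 1 := by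
    have h1 : constantCoeff ((finSuccEquiv k 3 m1).coeff N) = 1 := by
      have h2 : ρ ((finSuccEquiv k 3 m1).coeff N - 1) = 0 := by
        have h3 : (psi ρ m1).coeff N = 1 := by
          rw [hm1]
          exact hmonic
        rw [psi_apply, Polynomial.coeff_map] at h3
        rw [map_sub, h3, map_one, sub_self]
      have h4 := hρ0 _ h2
      rw [map_sub, map_one, sub_eq_zero] at h4
      exact h4
    have h5 : constantCoeff ((finSuccEquiv k 3 m').coeff N) = eval e0 m' := by
      rw [finSucc_coeff hm'h, constantCoeff_C]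
    rw [← h5, ← h1, constantCoeff_eq, finSuccEquiv_coeff_coeff, finSuccEquiv_coeff_coeff, hm',
      coeff_homogeneousComponent, if_pos]
    rw [Finsupp.degree_eq_sum, Fin.sum_univ_succ]
    simp
  have hm'μ : psi ρ m' = μ := by
    refine Polynomial.eq_of_monic_of_dvd_of_natDegree_le hmonic ?_ ?_ (psi_natDegree_le ρ hm'h)
    · refine Polynomial.monic_of_natDegree_le_of_coeff_eq_one N (psi_natDegree_le ρ hm'h) ?_
      rw [psi_coeff ρ hm'h, hcoef, map_one, map_one]
    · have h1 := (hmem m').2 hm'Q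
      rw [hqspan, Ideal.mem_span_singleton] at h1
      exact h1
  refine ⟨N, m', hm'h, ?_, ?_⟩
  · rw [hI, RingHom.mem_ker, hm'μ]
    exact hmonic.ne_zero
  · rw [J0_eq ρ hI hρ, hm'μ, ← hqspan, hcomap]

theorem single_eq [IsIntegrallyClosed R] {I : Ideal (Pol k)} (hI : I = RingHom.ker (psi ρ))
    (hIh : HomogIdeal I) (hρ : Function.Surjective ρ)
    (hρ0 : ∀ f, ρ f = 0 → constantCoeff f = 0) (D0 : PrimeDiv I →₀ ℤ)
    (hD0 : ∀ Q, D0 Q = (ord Q (X 0 : Pol k) : ℤ)) (Q : PrimeDiv I)
    (hQ : ∃ f ∈ Q.carrier, eval e0 f ≠ 0) :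
    ∃ n : ℤ, Cl.mk (Finsupp.single Q 1) = n • (Cl.mk D0 : Cl I) := by
  classical
  obtain ⟨n, m, hm, hmI, hQm⟩ := exists_gen ρ hI hIh hρ hρ0 Q hQ
  have hmQ : m ∈ Q.carrier := by
    rw [hQm]
    exact Ideal.mem_sup_left (Ideal.mem_span_singleton_self _)
  have hloc : LocPrin Q m := by
    refine ⟨hmQ, 1, ordA_one Q, fun h hh => ?_⟩
    rw [one_mul, ← hQm]
    exact hh
  have hX : (X 0 ^ n : Pol k) ∉ I := by
    intro h
    have h1 := (I_prime ρ hI).mem_of_pow_mem n h
    rw [hI, RingHom.mem_ker, psi_X0] at h1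
    exact Polynomial.X_ne_zero h1
  have hdiv : IsDivOf (Finsupp.single Q 1 - (n : ℤ) • D0) := by
    refine ⟨n, m, X 0 ^ n, hm, isHomogeneous_X_pow _ _, hmI, hX, fun Q' => ?_⟩
    rw [ord_X0_pow ρ hI hIh hρ, Finsupp.sub_apply, Finsupp.smul_apply, hD0, smul_eq_mul]
    push_cast
    congr 1
    by_cases hQQ : Q = Q'
    · subst hQQ
      rw [hloc.ord_self (I_prime ρ hI)]
      simp
    · rw [Finsupp.single_eq_of_ne (Ne.symm hQQ), ord_eq_zero_of_not_mem Q']
      · simp
      · intro hmQ'
        apply hQQ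
        have hle : Q.carrier ≤ Q'.carrier := by
          rw [hQm]
          exact sup_le ((Ideal.span_singleton_le_iff_mem _).2 hmQ') Q'.lt.le
        have heq := Q'.minimal Q.carrier Q.prime Q.homog Q.lt hle
        cases Q; cases Q'
        simp only at heq
        subst heq
        rfl
  refine ⟨n, ?_⟩
  have h1 : (Cl.mk (Finsupp.single Q 1 - (n : ℤ) • D0) : Cl I) = 0 :=
    (QuotientAddGroup.eq_zero_iff _).2 (AddSubgroup.subset_closure hdiv)
  have h2 : (Cl.mk (Finsupp.single Q 1 - (n : ℤ) • D0) : Cl I) =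
      Cl.mk (Finsupp.single Q 1) - (n : ℤ) • Cl.mk D0 := rfl
  rw [h2, sub_eq_zero] at h1
  exact h1

/-- the Picard number of the cone -/
theorem rho_le [IsIntegrallyClosed R] {I : Ideal (Pol k)} (hI : I = RingHom.ker (psi ρ))
    (hIh : HomogIdeal I) (hρ : Function.Surjective ρ)
    (hρ0 : ∀ f, ρ f = 0 → constantCoeff f = 0) : rho I ≤ 1 := by
  classical
  have hIp := I_prime ρ hI
  have hX : (X 0 : Pol k) ∉ I := by
    intro h1
    rw [hI, RingHom.mem_ker, psi_X0] at h1
    exact Polynomial.X_ne_zero h1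
  obtain ⟨D0, hD0⟩ := exists_divF hIp hIh (isHomogeneous_X k (0 : Fin 4)) hX
  have hle : Pic I ≤ AddSubgroup.zmultiples (Cl.mk D0 : Cl I) := by
    unfold Pic
    rw [AddSubgroup.closure_le]
    rintro _ ⟨D, hD, rfl⟩
    obtain ⟨d, A, B, hA, hB, hAI, hBI, h⟩ := hD e0 (fun h => by
      have := congrFun h 0
      simp [e0] at this) (fun f hf => eval_e0_of_mem ρ hI hIh hf)
    obtain ⟨DA, hDA⟩ := exists_divF hIp hIh hA hAI
    obtain ⟨DB, hDB⟩ := exists_divF hIp hIh hB hBI
    have hAB : (Cl.mk (DA - DB) : Cl I) = 0 :=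
      (QuotientAddGroup.eq_zero_iff _).2 (AddSubgroup.subset_closure
        ⟨d, A, B, hA, hB, hAI, hBI, fun Q => by rw [Finsupp.sub_apply, hDA, hDB]⟩)
    have h1 : (Cl.mk D : Cl I) = Cl.mk (D - (DA - DB)) + Cl.mk (DA - DB) := by
      change _ = Cl.mk ((D - (DA - DB)) + (DA - DB))
      rw [sub_add_cancel]
    rw [hAB, add_zero] at h1
    set D' := D - (DA - DB) with hD'
    have h2 : ∀ Q ∈ D'.support, ∃ f ∈ Q.carrier, eval e0 f ≠ 0 := by
      intro Q hQ
      by_contra hcon
      push Not at hcon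
      rw [Finsupp.mem_support_iff] at hQ
      apply hQ
      rw [hD', Finsupp.sub_apply, Finsupp.sub_apply, h Q hcon, hDA, hDB, sub_self]
    show (Cl.mk D : Cl I) ∈ AddSubgroup.zmultiples (Cl.mk D0 : Cl I)
    rw [h1]
    have h3 : (Cl.mk D' : Cl I) = ∑ Q ∈ D'.support, D' Q • Cl.mk (Finsupp.single Q (1 : ℤ)) := by
      conv_lhs => rw [← Finsupp.sum_single D']
      rw [Finsupp.sum]
      have h4 : ∀ (s : Finset (PrimeDiv I)) (f : PrimeDiv I → (PrimeDiv I →₀ ℤ)),
          (Cl.mk (∑ Q ∈ s, f Q) : Cl I) = ∑ Q ∈ s, Cl.mk (f Q) := by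
        intro s f
        exact map_sum (QuotientAddGroup.mk' (Princ I)) f s
      rw [h4]
      refine Finset.sum_congr rfl fun Q _ => ?_
      have h5 : Finsupp.single Q (D' Q) = D' Q • Finsupp.single Q (1 : ℤ) := by simp
      rw [h5]
      exact map_zsmul (QuotientAddGroup.mk' (Princ I)) _ _
    rw [h3]
    refine AddSubgroup.sum_mem _ fun Q hQ => ?_
    obtain ⟨n, hn⟩ := single_eq ρ hI hIh hρ hρ0 D0 hD0 Q (h2 Q hQ)
    rw [hn]
    exact AddSubgroup.zsmul_mem _ (AddSubgroup.zsmul_mem _ (AddSubgroup.mem_zmultiples _) _) _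
  unfold rho
  have h6 : Module.rank ℤ (Pic I) ≤ Module.rank ℤ (AddSubgroup.zmultiples (Cl.mk D0 : Cl I)) :=
    LinearMap.rank_le_of_injective (AddSubgroup.inclusion hle).toIntLinearMap
      (AddSubgroup.inclusion_injective hle)
  refine h6.trans ?_
  let f : ℤ →+ AddSubgroup.zmultiples (Cl.mk D0 : Cl I) :=
    zmultiplesHom _ ⟨Cl.mk D0, AddSubgroup.mem_zmultiples _⟩
  have hf : Function.Surjective f := by
    rintro ⟨x, hx⟩
    obtain ⟨n, rfl⟩ := AddSubgroup.mem_zmultiples_iff.1 hx
    exact ⟨n, by apply Subtype.ext; simp [f]⟩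
  have h7 := LinearMap.rank_le_of_surjective f.toIntLinearMap hf
  rwa [Module.rank_self] at h7

end Cone

end PicJump

end
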