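import Mathlib

/-!
Cyclic quartic extensions `S[z]/(z^4 - g)` of a factorial domain by a squarefree element are normal.
Auxiliary to BLOCK DiagB of MP_f6fc0c_ag.
-/

noncomputable section

namespace PicJump

namespace Cyc

open Polynomial

variable {S : Type} [CommRing S]

/-- the polynomial `z^4 - g` -/
def pol (g : S) : S[X] := X ^ 4 - C g

theorem pol_monic (g : S) : (pol g).Monic := monic_X_pow_sub_C g (by norm_num)

theorem pol_natDegree [Nontrivial S] (g : S) : (pol g).natDegree = 4 := natDegree_X_pow_sub_C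

theorem pol_irreducible [IsDomain S] [UniqueFactorizationMonoid S] {g : S} (hg : ¬ IsUnit g)
    (hg0 : g ≠ 0) (hsq : Squarefree g) : Irreducible (pol g) := by
  obtain ⟨p, hp, hpg⟩ := WfDvdMonoid.exists_irreducible_factor hg hg0
  have hp' : Prime p := UniqueFactorizationMonoid.irreducible_iff_prime.1 hp
  have hprime : (Ideal.span {p} : Ideal S).IsPrime := (Ideal.span_singleton_prime hp'.ne_zero).2 hp'
  have hE : (pol g).IsEisensteinAt (Ideal.span {p}) := by
    refine ⟨?_, ?_, ?_⟩
    · rw [(pol_monic g).leadingCoeff]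
      exact fun h => hprime.ne_top ((Ideal.eq_top_iff_one _).2 h)
    · intro n hn
      rw [pol_natDegree] at hn
      rw [pol, coeff_sub, coeff_X_pow, if_neg (by omega), zero_sub, coeff_C]
      split_ifs with h0
      · exact neg_mem (Ideal.mem_span_singleton.2 hpg)
      · simp
    · rw [pol, coeff_sub, coeff_X_pow, if_neg (by norm_num), zero_sub, coeff_C_zero]
      intro h
      rw [neg_mem_iff, pow_two, Ideal.span_singleton_mul_span_singleton,
        Ideal.mem_span_singleton] at h
      exact hp.not_isUnit (hsq p h)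
  exact hE.irreducible hprime (pol_monic g).isPrimitive (by rw [pol_natDegree]; norm_num)

theorem isDomain_adjoinRoot [IsDomain S] [UniqueFactorizationMonoid S] {g : S} (hg : ¬ IsUnit g)
    (hg0 : g ≠ 0) (hsq : Squarefree g) : IsDomain (AdjoinRoot (pol g)) :=
  AdjoinRoot.isDomain_of_prime
    (UniqueFactorizationMonoid.irreducible_iff_prime.1 (pol_irreducible hg hg0 hsq))

/-- the normal form of the elements of `S[z]/(z^4 - g)` -/
theorem exists_nf [Nontrivial S] (g : S) (r : AdjoinRoot (pol g)) : ∃ c : ℕ → S,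
    r = ∑ j ∈ Finset.range 4, AdjoinRoot.of (pol g) (c j) * AdjoinRoot.root (pol g) ^ j := by
  obtain ⟨q, rfl⟩ := AdjoinRoot.mk_surjective r
  refine ⟨fun j => (q %ₘ pol g).coeff j, ?_⟩
  have h1 : AdjoinRoot.mk (pol g) q = AdjoinRoot.mk (pol g) (q %ₘ pol g) := by
    rw [AdjoinRoot.mk_eq_mk]
    refine ⟨q /ₘ pol g, ?_⟩
    have := modByMonic_add_div q (pol g)
    nth_rewrite 1 [← this]
    ring
  have h2 : (q %ₘ pol g).natDegree < 4 := by
    have := natDegree_modByMonic_lt q (pol_monic g) (fun h => by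
      have := pol_natDegree g
      rw [h] at this
      simp at this)
    rwa [pol_natDegree] at this
  rw [h1]
  conv_lhs => rw [as_sum_range' (q %ₘ pol g) 4 h2]
  rw [map_sum]
  refine Finset.sum_congr rfl fun j _ => ?_
  rw [← C_mul_X_pow_eq_monomial, map_mul, map_pow, AdjoinRoot.mk_X, AdjoinRoot.mk_C]

theorem root_pow (g : S) : AdjoinRoot.root (pol g) ^ 4 = AdjoinRoot.of (pol g) g := by
  have h : (pol g).eval₂ (AdjoinRoot.of (pol g)) (AdjoinRoot.root (pol g)) = 0 :=
    AdjoinRoot.eval₂_root (pol g)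
  rw [pol, eval₂_sub, eval₂_X_pow, eval₂_C, sub_eq_zero] at h
  exact h

/-- the divisibility statement behind normality -/
theorem dvd_of_pow [IsDomain S] [UniqueFactorizationMonoid S] {g : S}
    (hg0 : g ≠ 0) (hsq : Squarefree g) {j : ℕ} (hj : j < 4) (t : S) (ht : t ≠ 0) :
    ∀ r : S, t ^ 4 ∣ r ^ 4 * g ^ j → t ∣ r := by
  induction t using UniqueFactorizationMonoid.induction_on_prime with
  | h₁ => exact absurd rfl ht
  | h₂ x hx => intro r _; exact hx.dvd
  | h₃ t p ht0 hp ih =>
    intro r h
    have hpr : p ∣ r := by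
      by_contra hpr
      have h1 : p ^ 4 ∣ g ^ j := by
        refine hp.pow_dvd_of_dvd_mul_left 4 (a := r ^ 4) (fun h' => hpr (hp.dvd_of_dvd_pow h')) ?_
        exact (Dvd.intro (t ^ 4) (by ring)).trans h
      have h2 : p ∣ g := hp.dvd_of_dvd_pow ((dvd_pow_self p (by norm_num)).trans h1)
      obtain ⟨g', rfl⟩ := h2
      have h3 : ¬ p ∣ g' := by
        rintro ⟨g'', rfl⟩
        exact hp.not_isUnit (hsq p ⟨g'', by ring⟩)
      have h4 : p ^ (j + 1) ∣ p ^ j * g' ^ j := by
        rw [← mul_pow]
        exact (pow_dvd_pow p (by omega)).trans h1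
      rw [pow_succ] at h4
      have h5 := (mul_dvd_mul_iff_left (pow_ne_zero j hp.ne_zero)).1 h4
      exact h3 (hp.dvd_of_dvd_pow h5)
    obtain ⟨r', rfl⟩ := hpr
    refine mul_dvd_mul_left p (ih ht0 r' ?_)
    have h1 : p ^ 4 * t ^ 4 ∣ p ^ 4 * (r' ^ 4 * g ^ j) := by
      have e1 : p ^ 4 * t ^ 4 = (p * t) ^ 4 := by ring
      have e2 : p ^ 4 * (r' ^ 4 * g ^ j) = (p * r') ^ 4 * g ^ j := by ring
      rw [e1, e2]
      exact h
    exact (mul_dvd_mul_iff_left (pow_ne_zero 4 hp.ne_zero)).1 h1

/-- integral fractions in an extension field -/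
theorem dvd_of_integral [IsDomain S] [UniqueFactorizationMonoid S] {L : Type} [Field L]
    [Algebra S L] (hinj : Function.Injective (algebraMap S L)) {c d : S} (hc : c ≠ 0) {y : L}
    (hy : IsIntegral S y) (h : algebraMap S L c * y = algebraMap S L d) : c ∣ d := by
  let K := FractionRing S
  let φ : K →ₐ[S] L := IsFractionRing.liftAlgHom (g := Algebra.ofId S L) hinj
  have hφ : ∀ s : S, φ (algebraMap S K s) = algebraMap S L s := fun s => φ.commutes s
  have hc' : algebraMap S K c ≠ 0 := by
    intro h0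
    exact hc ((IsFractionRing.injective S K) (by rw [h0, map_zero]))
  have hcL : algebraMap S L c ≠ 0 := by
    intro h0
    exact hc (hinj (by rw [h0, map_zero]))
  set y' : K := algebraMap S K d / algebraMap S K c with hy'
  have h1 : φ y' = y := by
    rw [hy', map_div₀, hφ, hφ, div_eq_iff hcL, ← h, mul_comm]
  have h2 : IsIntegral S y' := by
    rw [← isIntegral_algHom_iff φ φ.toRingHom.injective]
    change IsIntegral S (φ y')
    rw [h1]
    exact hy
  obtain ⟨e, he⟩ := IsIntegrallyClosed.isIntegral_iff.1 h2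
  refine ⟨e, (IsFractionRing.injective S K) ?_⟩
  rw [map_mul, he, hy', mul_div_cancel₀ _ hc']

theorem eval₂_pol {T : Type} [CommRing T] (f : S →+* T) (x : T) (g : S) :
    (pol g).eval₂ f x = x ^ 4 - f g := by
  rw [pol, eval₂_sub, eval₂_X_pow, eval₂_C]

/-- the automorphism `z -> i z` -/
def sig (g i : S) (hi : i ^ 2 = -1) : AdjoinRoot (pol g) →ₐ[S] AdjoinRoot (pol g) :=
  AdjoinRoot.liftAlgHom (pol g) (Algebra.ofId S _) (AdjoinRoot.of (pol g) i * AdjoinRoot.root (pol g)) (by
    have h4 : i ^ 4 = 1 := by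
      have : i ^ 4 = (i ^ 2) ^ 2 := by ring
      rw [this, hi]; ring
    rw [eval₂_pol, mul_pow, root_pow, ← map_pow, h4, map_one, one_mul]
    exact sub_self _)

theorem sig_root (g i : S) (hi : i ^ 2 = -1) :
    sig g i hi (AdjoinRoot.root (pol g)) = AdjoinRoot.of (pol g) i * AdjoinRoot.root (pol g) :=
  AdjoinRoot.liftAlgHom_root ..

theorem sig_of (g i : S) (hi : i ^ 2 = -1) (c : S) :
    sig g i hi (AdjoinRoot.of (pol g) c) = AdjoinRoot.of (pol g) c :=
  (sig g i hi).commutes c

theorem isIntegrallyClosed [IsDomain S] [UniqueFactorizationMonoid S] {g i : S}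
    (hi : i ^ 2 = -1) (h4 : IsUnit (4 : S)) (hg : ¬ IsUnit g) (hg0 : g ≠ 0) (hsq : Squarefree g) :
    IsIntegrallyClosed (AdjoinRoot (pol g)) := by
  have := isDomain_adjoinRoot hg hg0 hsq
  have : Module.Finite S (AdjoinRoot (pol g)) := (pol_monic g).finite_adjoinRoot
  have : Algebra.IsIntegral S (AdjoinRoot (pol g)) := Algebra.IsIntegral.of_finite _ _
  set R := AdjoinRoot (pol g) with hR
  let L := FractionRing R
  obtain ⟨q, hq⟩ := h4.exists_left_inv
  set z : R := AdjoinRoot.root (pol g) with hz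
  have hSR : Function.Injective (algebraMap S R) := by
    intro a b hab
    have h1 : AdjoinRoot.mk (pol g) (C a) = AdjoinRoot.mk (pol g) (C b) := hab
    rw [AdjoinRoot.mk_eq_mk] at h1
    rw [← map_sub] at h1
    by_contra hne
    have h2 := natDegree_le_of_dvd h1 (C_ne_zero.2 (sub_ne_zero.2 hne))
    rw [pol_natDegree, natDegree_C] at h2
    omega
  have hRL : Function.Injective (algebraMap R L) := IsFractionRing.injective R L
  have hSL : Function.Injective (algebraMap S L) := by
    rw [IsScalarTower.algebraMap_eq S R L]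
    exact hRL.comp hSR
  have hiu : ∀ x : R, AdjoinRoot.of (pol g) i ^ 2 * x = -x := by
    intro x
    rw [← map_pow, hi, map_neg, map_one]
    ring
  -- the automorphism of `R` is injective
  have hcomp : ∀ x : R, sig g i hi (sig g i hi (sig g i hi (sig g i hi x))) = x := by
    intro x
    obtain ⟨c, hc⟩ := exists_nf g x
    have h1 : ∀ j : ℕ, sig g i hi (sig g i hi (sig g i hi (sig g i hi (z ^ j)))) = z ^ j := by
      intro j
      have h2 : sig g i hi (sig g i hi (sig g i hi (sig g i hi z))) = z := by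
        simp only [hz, sig_root, map_mul, sig_of]
        have : AdjoinRoot.of (pol g) i * (AdjoinRoot.of (pol g) i * (AdjoinRoot.of (pol g) i *
            (AdjoinRoot.of (pol g) i * AdjoinRoot.root (pol g)))) =
            AdjoinRoot.of (pol g) i ^ 2 * (AdjoinRoot.of (pol g) i ^ 2 *
              AdjoinRoot.root (pol g)) := by ring
        rw [this, hiu, hiu, neg_neg]
      simp only [map_pow, h2]
    rw [hc]
    simp only [map_sum, map_mul, sig_of]
    refine Finset.sum_congr rfl fun j _ => ?_
    rw [h1]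
  have hinj : Function.Injective (sig g i hi) := by
    intro a b hab
    rw [← hcomp a, ← hcomp b, hab]
  let σ : L →ₐ[S] L := IsFractionRing.liftAlgHom
    (g := (IsScalarTower.toAlgHom S R L).comp (sig g i hi)) (hRL.comp hinj)
  have hσ : ∀ x : R, σ (algebraMap R L x) = algebraMap R L (sig g i hi x) := by
    intro x
    exact IsFractionRing.lift_algebraMap (K := L) (g := ((IsScalarTower.toAlgHom S R L).comp
      (sig g i hi)).toRingHom) (hRL.comp hinj) x
  rw [isIntegrallyClosed_iff L]
  intro α hα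
  have hαS : IsIntegral S α := isIntegral_trans (R := S) (A := R) α hα
  obtain ⟨t, r, ht, htr⟩ : ∃ (t : S) (r : R), t ≠ 0 ∧
      algebraMap S L t * α = algebraMap R L r := by
    obtain ⟨a, b, hb, hab⟩ := IsFractionRing.div_surjective (A := R) α
    obtain ⟨t, ht, b', hb'⟩ :=
      (Algebra.IsIntegral.isIntegral (R := S) b).isAlgebraic.exists_nonzero_dvd hb
    refine ⟨t, a * b', ht, ?_⟩
    have hb0 : algebraMap R L b ≠ 0 := by
      intro h0
      exact (mem_nonZeroDivisors_iff_ne_zero.1 hb) (hRL (by rw [h0, map_zero]))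
    rw [IsScalarTower.algebraMap_apply S R L, hb', map_mul, map_mul, ← hab]
    calc algebraMap R L b * algebraMap R L b' * (algebraMap R L a / algebraMap R L b) =
        (algebraMap R L b / algebraMap R L b) * (algebraMap R L a * algebraMap R L b') := by ring
      _ = _ := by rw [div_self hb0, one_mul]
  obtain ⟨c, hc⟩ := exists_nf g r
  have htL : algebraMap S L t ≠ 0 := by
    intro h0
    exact ht (hSL (by rw [h0, map_zero]))
  -- the key divisibility
  have key : ∀ j : ℕ, j < 4 → ∀ β : L, IsIntegral S β →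
      algebraMap S L t * β = algebraMap R L (AdjoinRoot.of (pol g) (c j) * z ^ j) → t ∣ c j := by
    intro j hj β hβ h
    refine dvd_of_pow hg0 hsq hj t ht (c j) ?_
    refine dvd_of_integral hSL (pow_ne_zero 4 ht) (hβ.pow 4) ?_
    have h1 : algebraMap S L (t ^ 4) * β ^ 4 = (algebraMap S L t * β) ^ 4 := by
      rw [map_pow, mul_pow]
    rw [h1, h, IsScalarTower.algebraMap_apply S R L, ← map_pow]
    congr 1
    have h2 : (AdjoinRoot.of (pol g) (c j) * z ^ j) ^ 4 =
        AdjoinRoot.of (pol g) (c j) ^ 4 * (z ^ 4) ^ j := by ring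
    rw [h2, hz, root_pow, AdjoinRoot.algebraMap_eq, map_mul, map_pow, map_pow]
  have hI : AdjoinRoot.of (pol g) i ^ 2 = -1 := by
    rw [← map_pow, hi, map_neg, map_one]
  have hQ : AdjoinRoot.of (pol g) q * 4 = 1 := by
    have := congrArg (AdjoinRoot.of (pol g)) hq
    rw [map_mul, map_one] at this
    rw [← this, map_ofNat]
  set I := AdjoinRoot.of (pol g) i with hIdef
  set Q := AdjoinRoot.of (pol g) q with hQdef
  set c0 := AdjoinRoot.of (pol g) (c 0) with hc0
  set c1 := AdjoinRoot.of (pol g) (c 1) with hc1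
  set c2 := AdjoinRoot.of (pol g) (c 2) with hc2
  set c3 := AdjoinRoot.of (pol g) (c 3) with hc3
  have e0 : r = c0 + c1 * z + c2 * z ^ 2 + c3 * z ^ 3 := by
    rw [hc, Finset.sum_range_succ, Finset.sum_range_succ, Finset.sum_range_succ,
      Finset.sum_range_succ, Finset.sum_range_zero, zero_add, pow_zero, mul_one, pow_one]
  have sz : sig g i hi z = I * z := sig_root g i hi
  have sI : sig g i hi I = I := sig_of g i hi i
  have s0 : sig g i hi c0 = c0 := sig_of g i hi _
  have s1 : sig g i hi c1 = c1 := sig_of g i hi _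
  have s2 : sig g i hi c2 = c2 := sig_of g i hi _
  have s3 : sig g i hi c3 = c3 := sig_of g i hi _
  have e1 : sig g i hi r = c0 + I * c1 * z - c2 * z ^ 2 - I * c3 * z ^ 3 := by
    rw [e0]
    simp only [map_add, map_mul, map_pow, s0, s1, s2, s3, sz]
    linear_combination (c2 * z ^ 2 + I * c3 * z ^ 3) * hI
  have e2 : sig g i hi (sig g i hi r) = c0 - c1 * z + c2 * z ^ 2 - c3 * z ^ 3 := by
    rw [e1]
    simp only [map_add, map_sub, map_mul, map_pow, s0, s1, s2, s3, sz, sI]
    linear_combination (c1 * z - c2 * z ^ 2 - (I ^ 2 - 1) * c3 * z ^ 3) * hI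
  have e3 : sig g i hi (sig g i hi (sig g i hi r)) =
      c0 - I * c1 * z - c2 * z ^ 2 + I * c3 * z ^ 3 := by
    rw [e2]
    simp only [map_add, map_sub, map_mul, map_pow, s0, s1, s2, s3, sz]
    linear_combination (c2 * z ^ 2 - I * c3 * z ^ 3) * hI
  have hint : ∀ x : L, IsIntegral S x → IsIntegral S (σ x) := fun x hx => hx.map σ
  have i1 := hint α hαS
  have i2 := hint _ i1
  have i3 := hint _ i2
  have iq : IsIntegral S (algebraMap S L q) := isIntegral_algebraMap
  have ii : IsIntegral S (algebraMap S L i) := isIntegral_algebraMap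
  have t1 : algebraMap S L t * σ α = algebraMap R L (sig g i hi r) := by
    rw [← hσ, ← htr, map_mul, AlgHom.commutes]
  have t2 : algebraMap S L t * σ (σ α) = algebraMap R L (sig g i hi (sig g i hi r)) := by
    rw [← hσ, ← t1, map_mul, AlgHom.commutes]
  have t3 : algebraMap S L t * σ (σ (σ α)) =
      algebraMap R L (sig g i hi (sig g i hi (sig g i hi r))) := by
    rw [← hσ, ← t2, map_mul, AlgHom.commutes]
  have hqL : algebraMap S L q = algebraMap R L Q := IsScalarTower.algebraMap_apply S R L q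
  have hiL : algebraMap S L i = algebraMap R L I := IsScalarTower.algebraMap_apply S R L i
  have d0 : t ∣ c 0 := by
    refine key 0 (by norm_num) (algebraMap S L q * (α + σ α + σ (σ α) + σ (σ (σ α)))) ?_ ?_
    · exact iq.mul (((hαS.add i1).add i2).add i3)
    · have : AdjoinRoot.of (pol g) (c 0) * z ^ 0 =
          Q * (r + sig g i hi r + sig g i hi (sig g i hi r) +
            sig g i hi (sig g i hi (sig g i hi r))) := by
        rw [e3, e2, e1, e0]
        linear_combination -c0 * hQ
      rw [this, map_mul, map_add, map_add, map_add, ← t1, ← t2, ← t3, ← htr, hqL]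
      ring
  have d1 : t ∣ c 1 := by
    refine key 1 (by norm_num) (algebraMap S L q * (α - algebraMap S L i * σ α - σ (σ α) +
      algebraMap S L i * σ (σ (σ α)))) ?_ ?_
    · exact iq.mul (((hαS.sub (ii.mul i1)).sub i2).add (ii.mul i3))
    · have : AdjoinRoot.of (pol g) (c 1) * z ^ 1 =
          Q * (r - I * sig g i hi r - sig g i hi (sig g i hi r) +
            I * sig g i hi (sig g i hi (sig g i hi r))) := by
        rw [e3, e2, e1, e0]
        linear_combination -(c1 * z) * hQ - Q * (-2 * c1 * z + 2 * c3 * z ^ 3) * hI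
      rw [this, map_mul, map_add, map_sub, map_sub, map_mul, map_mul, ← t1, ← t2, ← t3, ← htr,
        hqL, hiL]
      ring
  have d2 : t ∣ c 2 := by
    refine key 2 (by norm_num) (algebraMap S L q * (α - σ α + σ (σ α) - σ (σ (σ α)))) ?_ ?_
    · exact iq.mul (((hαS.sub i1).add i2).sub i3)
    · have : AdjoinRoot.of (pol g) (c 2) * z ^ 2 =
          Q * (r - sig g i hi r + sig g i hi (sig g i hi r) -
            sig g i hi (sig g i hi (sig g i hi r))) := by
        rw [e3, e2, e1, e0]
        linear_combination -(c2 * z ^ 2) * hQ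
      rw [this, map_mul, map_sub, map_add, map_sub, ← t1, ← t2, ← t3, ← htr, hqL]
      ring
  have d3 : t ∣ c 3 := by
    refine key 3 (by norm_num) (algebraMap S L q * (α + algebraMap S L i * σ α - σ (σ α) -
      algebraMap S L i * σ (σ (σ α)))) ?_ ?_
    · exact iq.mul (((hαS.add (ii.mul i1)).sub i2).sub (ii.mul i3))
    · have : AdjoinRoot.of (pol g) (c 3) * z ^ 3 =
          Q * (r + I * sig g i hi r - sig g i hi (sig g i hi r) -
            I * sig g i hi (sig g i hi (sig g i hi r))) := by
        rw [e3, e2, e1, e0]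
        linear_combination -(c3 * z ^ 3) * hQ - Q * (2 * c1 * z - 2 * c3 * z ^ 3) * hI
      rw [this, map_mul, map_sub, map_sub, map_add, map_mul, map_mul, ← t1, ← t2, ← t3, ← htr,
        hqL, hiL]
      ring
  obtain ⟨a0, ha0⟩ := d0
  obtain ⟨a1, ha1⟩ := d1
  obtain ⟨a2, ha2⟩ := d2
  obtain ⟨a3, ha3⟩ := d3
  refine ⟨AdjoinRoot.of (pol g) a0 + AdjoinRoot.of (pol g) a1 * z + AdjoinRoot.of (pol g) a2 * z ^ 2
    + AdjoinRoot.of (pol g) a3 * z ^ 3, ?_⟩
  apply mul_left_cancel₀ htL
  rw [htr, IsScalarTower.algebraMap_apply S R L, ← map_mul]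
  congr 1
  rw [e0, hc0, hc1, hc2, hc3, ha0, ha1, ha2, ha3, AdjoinRoot.algebraMap_eq]
  simp only [map_mul]
  ring

end Cyc

end PicJump

end
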